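import Pool.Agent.Helper98.MW.C.Inner

/-! MW-C04. The limit function. `Th v u (ε, (a, b, y, X, Y))` is the Hessian of `QQ + NewW` at the point
`x = cc + den ε X` when `ε = 1/n`. It is continuous in all variables (`H2_continuous`, continuity of `fderiv` of smooth
functions, continuity of `(ε, k) ↦ P`) and `1`-periodic in `Y` (`H2_periodic`, `fderiv_periodic` for `Om` with the shift
`(0, 0, 1)`; by induction for integer shifts). -/

namespace Pool.Agent.Helper98.MW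

/-- the point of the inner zone -/
noncomputable def innerP (η ε a b y X : ℝ) : P4 := (a, b, cc η y + den η y * ε * X, y)

noncomputable def Th (w : P4 → ℝ) (c : ℝ × ℝ) (η : ℝ) (v u : P4)
    (q : ℝ × (ℝ × ℝ × ℝ × ℝ × ℝ)) : ℝ :=
  H2 (fun P : P4 => QQ P + EE c η P.1 P.2.1 P.2.2.1 P.2.2.2)
      (innerP η q.1 q.2.1 q.2.2.1 q.2.2.2.1 q.2.2.2.2.1) v u
    + H2 (Om w c η) (innerP η q.1 q.2.1 q.2.2.1 q.2.2.2.1 q.2.2.2.2.1, q.2.2.2.2.1, q.2.2.2.2.2)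
        (q.1 • v, fderiv ℝ (fun P : P4 => T0 η P.2.2.1 P.2.2.2)
            (innerP η q.1 q.2.1 q.2.2.1 q.2.2.2.1 q.2.2.2.2.1) v,
          fderiv ℝ (fun P : P4 => SS η P.2.2.1 P.2.2.2)
            (innerP η q.1 q.2.1 q.2.2.1 q.2.2.2.1 q.2.2.2.2.1) v)
        (q.1 • u, fderiv ℝ (fun P : P4 => T0 η P.2.2.1 P.2.2.2)
            (innerP η q.1 q.2.1 q.2.2.1 q.2.2.2.1 q.2.2.2.2.1) u,
          fderiv ℝ (fun P : P4 => SS η P.2.2.1 P.2.2.2)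
            (innerP η q.1 q.2.1 q.2.2.1 q.2.2.2.1 q.2.2.2.2.1) u)
    + q.1 * fderiv ℝ (Om w c η)
        (innerP η q.1 q.2.1 q.2.2.1 q.2.2.2.1 q.2.2.2.2.1, q.2.2.2.2.1, q.2.2.2.2.2)
        (0, H2 (fun P : P4 => T0 η P.2.2.1 P.2.2.2)
            (innerP η q.1 q.2.1 q.2.2.1 q.2.2.2.1 q.2.2.2.2.1) v u,
          H2 (fun P : P4 => SS η P.2.2.1 P.2.2.2)
            (innerP η q.1 q.2.1 q.2.2.1 q.2.2.2.1 q.2.2.2.2.1) v u)

private theorem Th_innerP_cont (η : ℝ) : Continuous (fun q : ℝ × (ℝ × ℝ × ℝ × ℝ × ℝ) =>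
    innerP η q.1 q.2.1 q.2.2.1 q.2.2.2.1 q.2.2.2.2.1) := by
  unfold innerP cc den kap
  fun_prop

private theorem Th_fd_cont {f : P4 → ℝ} (hf : ContDiff ℝ (⊤ : ℕ∞) f) (η : ℝ) (v : P4) :
    Continuous (fun q : ℝ × (ℝ × ℝ × ℝ × ℝ × ℝ) =>
      fderiv ℝ f (innerP η q.1 q.2.1 q.2.2.1 q.2.2.2.1 q.2.2.2.2.1) v) :=
  ((hf.continuous_fderiv (by simp)).comp (Th_innerP_cont η)).clm_apply continuous_const

private theorem Th_h2_cont {f : P4 → ℝ} (hf : ContDiff ℝ (⊤ : ℕ∞) f) (η : ℝ) (v u : P4) :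
    Continuous (fun q : ℝ × (ℝ × ℝ × ℝ × ℝ × ℝ) =>
      H2 f (innerP η q.1 q.2.1 q.2.2.1 q.2.2.2.1 q.2.2.2.2.1) v u) :=
  (H2_continuous hf).comp ((Th_innerP_cont η).prodMk (continuous_const.prodMk continuous_const))

theorem Th_continuous {w : P4 → ℝ} (hw : ContDiff ℝ (⊤ : ℕ∞) w) (c : ℝ × ℝ) (η : ℝ) (v u : P4) :
    Continuous (Th w c η v u) := by
  have hQ : ContDiff ℝ (⊤ : ℕ∞) QQ := by
    unfold QQ
    fun_prop
  have hE := contDiff_EE_fix c η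
  have hOm := contDiff_Om hw c η
  have hT := contDiff_T0_fix η
  have hS := contDiff_SS_fix η
  have hpt : Continuous (fun q : ℝ × (ℝ × ℝ × ℝ × ℝ × ℝ) =>
      ((innerP η q.1 q.2.1 q.2.2.1 q.2.2.2.1 q.2.2.2.2.1, q.2.2.2.2.1, q.2.2.2.2.2) :
        P4 × ℝ × ℝ)) := by
    refine (Th_innerP_cont η).prodMk (Continuous.prodMk ?_ ?_) <;> fun_prop
  have hvec : ∀ v : P4, Continuous (fun q : ℝ × (ℝ × ℝ × ℝ × ℝ × ℝ) =>
      ((q.1 • v, fderiv ℝ (fun P : P4 => T0 η P.2.2.1 P.2.2.2)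
            (innerP η q.1 q.2.1 q.2.2.1 q.2.2.2.1 q.2.2.2.2.1) v,
          fderiv ℝ (fun P : P4 => SS η P.2.2.1 P.2.2.2)
            (innerP η q.1 q.2.1 q.2.2.1 q.2.2.2.1 q.2.2.2.2.1) v) : P4 × ℝ × ℝ)) := by
    intro v
    exact (continuous_fst.smul continuous_const).prodMk
      ((Th_fd_cont hT η v).prodMk (Th_fd_cont hS η v))
  have h1 := Th_h2_cont (hQ.add hE) η v u
  have h2 := (H2_continuous hOm).comp (hpt.prodMk ((hvec v).prodMk (hvec u)))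
  have h3 : Continuous (fun q : ℝ × (ℝ × ℝ × ℝ × ℝ × ℝ) => fderiv ℝ (Om w c η)
        (innerP η q.1 q.2.1 q.2.2.1 q.2.2.2.1 q.2.2.2.2.1, q.2.2.2.2.1, q.2.2.2.2.2)
        (0, H2 (fun P : P4 => T0 η P.2.2.1 P.2.2.2)
            (innerP η q.1 q.2.1 q.2.2.1 q.2.2.2.1 q.2.2.2.2.1) v u,
          H2 (fun P : P4 => SS η P.2.2.1 P.2.2.2)
            (innerP η q.1 q.2.1 q.2.2.1 q.2.2.2.1 q.2.2.2.2.1) v u)) :=
    ((hOm.continuous_fderiv (by simp)).comp hpt).clm_apply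
      (continuous_const.prodMk ((Th_h2_cont hT η v u).prodMk (Th_h2_cont hS η v u)))
  exact (h1.add h2).add (continuous_fst.mul h3)

private theorem Om_shift {w : P4 → ℝ}
    (hper : ∀ a b X Y : ℝ, w (a, b, X, Y + 1) = w (a, b, X, Y)) (c : ℝ × ℝ) (η : ℝ) (k : ℤ)
    (Q : P4 × ℝ × ℝ) : Om w c η (Q + (0, 0, (k : ℝ))) = Om w c η Q := by
  obtain ⟨P, X, Y⟩ := Q
  have hp : Function.Periodic
      (fun Y : ℝ => w (al c η P.1 P.2.1 P.2.2.2, bl c η P.1 P.2.1 P.2.2.2, X, Y)) 1 :=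
    fun Y => hper _ _ _ _
  have h2 := hp.int_mul k Y
  simp only [mul_one] at h2
  simp only [Om, Prod.mk_add_mk, add_zero]
  rw [h2]

theorem Th_periodic {w : P4 → ℝ}
    (hper : ∀ a b X Y : ℝ, w (a, b, X, Y + 1) = w (a, b, X, Y)) (c : ℝ × ℝ) (η : ℝ) (v u : P4)
    (ε a b y X Y : ℝ) (k : ℤ) :
    Th w c η v u (ε, (a, b, y, X, Y + k)) = Th w c η v u (ε, (a, b, y, X, Y)) := by
  have e : ((innerP η ε a b y X, X, Y + (k : ℝ)) : P4 × ℝ × ℝ)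
      = (innerP η ε a b y X, X, Y) + (0, 0, (k : ℝ)) := by
    simp only [Prod.mk_add_mk, add_zero]
  simp only [Th]
  rw [e, H2_periodic (Om_shift hper c η k), fderiv_periodic (Om_shift hper c η k)]

end Pool.Agent.Helper98.MW
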