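import Pool.Agent.Helper98.MW.B.Curve
import Pool.Agent.Helper98.MW.B.Grad
import Pool.Agent.Helper98.MW.C.Theta

/-! MW-C05. The value at `ε = 0`. The point is `(a, b, cc η y, y)` on the zigzag; the first term is `curve_xx` etc., the
last term vanishes, and in the middle term the slow directions vanish:
`H2 (Om w c η) (P, X, Y) (0, t1, s1) (0, t2, s2) = den * (wXX t1 t2 + wXY (t1 s2 + s1 t2) + wYY s1 s2)` with
`wXX = H2 w (al, bl, X, Y) eX eX` etc. (`Om_fast`: `Om` restricted to the affine plane `(X, Y) ↦ (P, X, Y)` is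
`den * w (al, bl, X, Y)`; use `H2_comp_affine` twice, `H2_const_mul` and bilinearity and symmetry). Insert `T0_x` etc.:
`den * (1/den)^2 = 1/den`. -/

namespace Pool.Agent.Helper98.MW

theorem Om_fast {w : P4 → ℝ} (hw : ContDiff ℝ (⊤ : ℕ∞) w) (c : ℝ × ℝ) (η : ℝ) (P : P4)
    (X Y t1 s1 t2 s2 : ℝ) :
    H2 (Om w c η) (P, X, Y) (0, t1, s1) (0, t2, s2)
      = den η P.2.2.2 *
        (H2 w (al c η P.1 P.2.1 P.2.2.2, bl c η P.1 P.2.1 P.2.2.2, X, Y) eX eX * (t1 * t2)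
          + H2 w (al c η P.1 P.2.1 P.2.2.2, bl c η P.1 P.2.1 P.2.2.2, X, Y) eX eY
            * (t1 * s2 + s1 * t2)
          + H2 w (al c η P.1 P.2.1 P.2.2.2, bl c η P.1 P.2.1 P.2.2.2, X, Y) eY eY
            * (s1 * s2)) := by
  obtain ⟨α, hα⟩ : ∃ α, α = al c η P.1 P.2.1 P.2.2.2 := ⟨_, rfl⟩
  obtain ⟨β, hβ⟩ : ∃ β, β = bl c η P.1 P.2.1 P.2.2.2 := ⟨_, rfl⟩
  rw [← hα, ← hβ]
  let L1 : ℝ × ℝ →L[ℝ] P4 × ℝ × ℝ := ContinuousLinearMap.inr ℝ P4 (ℝ × ℝ)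
  let L2 : ℝ × ℝ →L[ℝ] P4 := ContinuousLinearMap.prod 0
    (ContinuousLinearMap.prod 0 (ContinuousLinearMap.id ℝ (ℝ × ℝ)))
  have hL1 : ∀ t s : ℝ, L1 (t, s) = (0, t, s) := fun t s => rfl
  have hL2 : ∀ t s : ℝ, L2 (t, s) = t • eX + s • eY := by
    intro t s
    show ((0 : ℝ), (0 : ℝ), t, s) = t • eX + s • eY
    simp [eX, eY]
  have h1 := H2_comp_affine (contDiff_Om hw c η) L1 (P, 0, 0) (X, Y) (t1, s1) (t2, s2)
  have e1 : L1 (X, Y) + (P, 0, 0) = (P, X, Y) := by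
    rw [hL1]
    simp
  rw [e1, hL1, hL1] at h1
  have h2 : (fun Q : ℝ × ℝ => Om w c η (L1 Q + (P, 0, 0)))
      = fun Q => den η P.2.2.2 * w (L2 Q + (α, β, 0, 0)) := by
    funext Q
    obtain ⟨t, r⟩ := Q
    have e2 : L1 (t, r) + (P, 0, 0) = (P, t, r) := by
      rw [hL1]
      simp
    have e3 : L2 (t, r) + (α, β, 0, 0) = (α, β, t, r) := by
      rw [hL2]
      simp [eX, eY]
    rw [e2, e3, hα, hβ]
    rfl
  have hsm : ContDiff ℝ (⊤ : ℕ∞) (fun Q : ℝ × ℝ => w (L2 Q + (α, β, 0, 0))) :=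
    hw.comp (L2.contDiff.add contDiff_const)
  rw [h2, H2_const_mul hsm, H2_comp_affine hw L2 (α, β, 0, 0) (X, Y) (t1, s1) (t2, s2)] at h1
  have e4 : L2 (X, Y) + (α, β, 0, 0) = (α, β, X, Y) := by
    rw [hL2]
    simp [eX, eY]
  rw [e4, hL2, hL2] at h1
  rw [← h1]
  congr 1
  have hs := H2_symm hw (α, β, X, Y) eY eX
  unfold H2 at hs ⊢
  simp only [map_add, map_smul, ContinuousLinearMap.add_apply, ContinuousLinearMap.smul_apply,
    smul_eq_mul]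
  rw [hs]
  ring

private lemma tz_th {w : P4 → ℝ} (c : ℝ × ℝ) (η a b y X Y : ℝ) (v u : P4) :
    Th w c η v u (0, (a, b, y, X, Y)) =
      H2 (fun P : P4 => QQ P + EE c η P.1 P.2.1 P.2.2.1 P.2.2.2) (a, b, cc η y, y) v u
      + H2 (Om w c η) ((a, b, cc η y, y), X, Y)
        (0, fderiv ℝ (fun P : P4 => T0 η P.2.2.1 P.2.2.2) (a, b, cc η y, y) v,
          fderiv ℝ (fun P : P4 => SS η P.2.2.1 P.2.2.2) (a, b, cc η y, y) v)
        (0, fderiv ℝ (fun P : P4 => T0 η P.2.2.1 P.2.2.2) (a, b, cc η y, y) u,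
          fderiv ℝ (fun P : P4 => SS η P.2.2.1 P.2.2.2) (a, b, cc η y, y) u) := by
  have hin : innerP η 0 a b y X = (a, b, cc η y, y) := by simp [innerP]
  unfold Th
  simp only [hin, zero_smul, zero_mul, add_zero]

theorem Th_zero_xx {w : P4 → ℝ} (hw : ContDiff ℝ (⊤ : ℕ∞) w) (c : ℝ × ℝ) (η a b y X Y : ℝ) :
    Th w c η eX eX (0, (a, b, y, X, Y)) = N11 c η a b y
      + (H2 w (al c η a b y, bl c η a b y, X, Y) eX eX
        + 2 * kap η y * H2 w (al c η a b y, bl c η a b y, X, Y) eX eY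
        + kap η y ^ 2 * H2 w (al c η a b y, bl c η a b y, X, Y) eY eY) / den η y := by
  have hd := (den_pos η y).ne'
  rw [tz_th, curve_xx, T0_x, SS_x, Om_fast hw]
  congr 1
  simp only
  field_simp
  ring

theorem Th_zero_xy {w : P4 → ℝ} (hw : ContDiff ℝ (⊤ : ℕ∞) w) (c : ℝ × ℝ) (η a b y X Y : ℝ) :
    Th w c η eX eY (0, (a, b, y, X, Y)) = N12 c η a b y
      + (-kap η y * H2 w (al c η a b y, bl c η a b y, X, Y) eX eX
        + (1 - kap η y ^ 2) * H2 w (al c η a b y, bl c η a b y, X, Y) eX eY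
        + kap η y * H2 w (al c η a b y, bl c η a b y, X, Y) eY eY) / den η y := by
  have hd := (den_pos η y).ne'
  rw [tz_th, curve_xy, T0_x, SS_x, T0_y, SS_y, Om_fast hw]
  congr 1
  simp only
  field_simp
  ring

theorem Th_zero_yy {w : P4 → ℝ} (hw : ContDiff ℝ (⊤ : ℕ∞) w) (c : ℝ × ℝ) (η a b y X Y : ℝ) :
    Th w c η eY eY (0, (a, b, y, X, Y)) = N22 c η a b y
      + (kap η y ^ 2 * H2 w (al c η a b y, bl c η a b y, X, Y) eX eX
        - 2 * kap η y * H2 w (al c η a b y, bl c η a b y, X, Y) eX eY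
        + H2 w (al c η a b y, bl c η a b y, X, Y) eY eY) / den η y := by
  have hd := (den_pos η y).ne'
  rw [tz_th, curve_yy, T0_y, SS_y, Om_fast hw]
  congr 1
  simp only
  field_simp
  ring

end Pool.Agent.Helper98.MW
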