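import Pool.Agent.Helper98.MW.A.Tube
import Pool.Agent.Helper98.MW.A.QQ
import Pool.Agent.Helper98.MW.A.Add
import Pool.Agent.Helper98.MW.B.DiscFacts
import Pool.Agent.Helper98.MW.B.Contract
import Pool.Agent.Helper98.MW.B.Rotate
import Pool.Agent.Helper98.MW.C.ThetaZero

/-! MW-C06. Goodness in the inner zone. `good_tube` with `K = ℝ × ℝ × ℝ × ℝ × ℝ`,
`S = {(a, b, y, X, Y) : (a, b) ∈ Disc c (θ r), y ∈ [0,1], X ∈ [-1,1], Y ∈ [0,1]}` (compact) and the three functions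
`Th w c η eX eX`, `Th w c η eX eY`, `Th w c η eY eY` (`Th_continuous`). At `ε = 0` they are `Good` by `Th_zero_*`,
`curve_good` and `hw.good` at `(al, bl) ∈ Disc c r` (`contract`). This gives `δ`; take `n0 > max 8 (1/δ)`.
For a point `(a, b, x, y)` with `|n TT| ≤ 1`: first reduce to `y ∈ [0, 1)` (`H2_periodic` for `NewW`, shift by `⌊y⌋`, and
`TT_add_one`); `inner_zone` gives `|x| < 1/2`, `TT = T0`; put `X = n T0`, `Y = n SS - ⌊n SS⌋`, so `x = cc + den (1/n) X`, and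
`NewW_H2_inner`, `Th_periodic` identify the Hessian of `QQ + NewW` with `Th v u (1/n, (a, b, y, X, Y))`; split off `QQ`
(`H2_add`, `H2_QQ_*`). -/

namespace Pool.Agent.Helper98.MW

/-- the compact parameter set -/
private def ig_S (D : Set (ℝ × ℝ)) : Set (ℝ × ℝ × ℝ × ℝ × ℝ) :=
  (fun p : (ℝ × ℝ) × (ℝ × ℝ × ℝ) => (p.1.1, p.1.2, p.2)) ''
    (D ×ˢ (Set.Icc (0 : ℝ) 1 ×ˢ (Set.Icc (-1 : ℝ) 1 ×ˢ Set.Icc (0 : ℝ) 1)))

private theorem ig_S_compact {D : Set (ℝ × ℝ)} (hD : IsCompact D) : IsCompact (ig_S D) := by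
  unfold ig_S
  refine IsCompact.image ?_ (by fun_prop)
  exact hD.prod (isCompact_Icc.prod (isCompact_Icc.prod isCompact_Icc))

private theorem ig_S_mem {D : Set (ℝ × ℝ)} {a b y X Y : ℝ} (h1 : (a, b) ∈ D)
    (hy : y ∈ Set.Icc (0 : ℝ) 1) (hX : X ∈ Set.Icc (-1 : ℝ) 1) (hY : Y ∈ Set.Icc (0 : ℝ) 1) :
    (a, b, y, X, Y) ∈ ig_S D :=
  ⟨((a, b), (y, X, Y)), ⟨h1, hy, hX, hY⟩, rfl⟩

private theorem ig_S_disc {D : Set (ℝ × ℝ)} {a b y X Y : ℝ} (h : (a, b, y, X, Y) ∈ ig_S D) :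
    (a, b) ∈ D := by
  obtain ⟨⟨⟨a', b'⟩, q⟩, hp, he⟩ := h
  simp only [Prod.mk.injEq] at he
  obtain ⟨rfl, rfl, _⟩ := he
  exact hp.1

private theorem ig_split {w : P4 → ℝ} (hw : ContDiff ℝ (⊤ : ℕ∞) w) (c : ℝ × ℝ) (η : ℝ)
    (n : ℕ) (P v u : P4) :
    H2 (fun P => QQ P + NewW w c η n P) P v u = H2 QQ P v u + H2 (NewW w c η n) P v u :=
  H2_add contDiff_QQ (NewW_smooth hw c η n) P v u

private theorem ig_ident {w : P4 → ℝ} (hw : ContDiff ℝ (⊤ : ℕ∞) w)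
    (hper : ∀ a b X Y : ℝ, w (a, b, X, Y + 1) = w (a, b, X, Y)) (c : ℝ × ℝ) (η : ℝ)
    {n : ℕ} (hn : 1 ≤ n) {a b x y : ℝ} (hx : |x| < 1 / 2) (v u : P4) :
    H2 QQ (a, b, x, y) v u + H2 (NewW w c η n) (a, b, x, y) v u
      = Th w c η v u ((n : ℝ)⁻¹, (a, b, y, n * T0 η x y, n * SS η x y - ⌊n * SS η x y⌋)) := by
  have hn0 : (n : ℝ) ≠ 0 := by
    have : 0 < n := hn
    positivity
  have h1 := NewW_H2_inner hw c η hn (P := (a, b, x, y)) hx v u
  rw [ig_split hw] at h1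
  rw [h1]
  have h2 := Th_periodic hper c η v u (n : ℝ)⁻¹ a b y (n * T0 η x y)
    (n * SS η x y - ⌊n * SS η x y⌋) ⌊n * SS η x y⌋
  rw [sub_add_cancel] at h2
  rw [← h2]
  have hin : innerP η (n : ℝ)⁻¹ a b y (n * T0 η x y) = (a, b, x, y) := by
    unfold innerP T0
    have hd := (den_pos η y).ne'
    have : cc η y + den η y * (n : ℝ)⁻¹ * (n * ((x - cc η y) / den η y)) = x := by
      field_simp
      ring
    rw [this]
  simp only [Th, hin]

private theorem ig_TT_int (η x y : ℝ) (k : ℤ) : TT η x (y + k) = TT η x y := by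
  have hp : Function.Periodic (fun y : ℝ => TT η x y) 1 := fun y => TT_add_one η x y
  have h2 := hp.int_mul k y
  simpa using h2

private theorem ig_H2_int {w : P4 → ℝ}
    (hper : ∀ a b X Y : ℝ, w (a, b, X, Y + 1) = w (a, b, X, Y)) (c : ℝ × ℝ) (η : ℝ)
    (n : ℕ) (a b x y : ℝ) (k : ℤ) (v u : P4) :
    H2 (NewW w c η n) (a, b, x, y + k) v u = H2 (NewW w c η n) (a, b, x, y) v u := by
  have hs : ∀ Q : P4, NewW w c η n (Q + (0, 0, 0, (k : ℝ))) = NewW w c η n Q := by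
    intro Q
    obtain ⟨a, b, x, y⟩ := Q
    have hp : Function.Periodic (fun y : ℝ => NewW w c η n (a, b, x, y)) 1 :=
      fun y => NewW_periodic hper c η n a b x y
    have h2 := hp.int_mul k y
    simp only [mul_one] at h2
    simp only [Prod.mk_add_mk, add_zero]
    exact h2
  have e : ((a, b, x, y + (k : ℝ)) : P4) = (a, b, x, y) + (0, 0, 0, (k : ℝ)) := by
    simp only [Prod.mk_add_mk, add_zero]
  rw [e, H2_periodic hs]

theorem inner_good {w : P4 → ℝ} {c : ℝ × ℝ} {r η θ : ℝ} (hw : WallFam (Disc c r) w)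
    (hη : 0 < η) (hη1 : η ≤ 1) (hθ : θ ^ 2 * (1 - η ^ 2 / 4 + η ^ 4 / 16) ≤ 1) :
    ∃ n0 : ℕ, ∀ n : ℕ, n0 ≤ n → ∀ a b x y : ℝ, (a, b) ∈ Disc c (θ * r) →
      |n * TT η x y| ≤ 1 →
      Good (H2 (NewW w c η n) (a, b, x, y) eX eX)
        (a + H2 (NewW w c η n) (a, b, x, y) eX eY)
        (b + H2 (NewW w c η n) (a, b, x, y) eY eY) := by
  have hcont := Th_continuous hw.smooth c η
  obtain ⟨δ, hδ, hgood⟩ := good_tube (ig_S_compact (isCompact_Disc c (θ * r)))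
    (f := Th w c η eX eX) (g := Th w c η eX eY) (h := Th w c η eY eY)
    (fun k _ => (hcont eX eX).continuousAt) (fun k _ => (hcont eX eY).continuousAt)
    (fun k _ => (hcont eY eY).continuousAt) (by
      rintro ⟨a, b, y, X, Y⟩ hk
      have hd := ig_S_disc hk
      rw [Th_zero_xx hw.smooth, Th_zero_xy hw.smooth, Th_zero_yy hw.smooth]
      exact curve_good c η a b y (hw.good _ _ X Y (contract y hη hη1 hθ hd)))
  obtain ⟨N, hN⟩ := exists_nat_gt (1 / δ)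
  refine ⟨max 8 (N + 1), fun n hn a b x y hab hT => ?_⟩
  have hn8 : 8 ≤ n := le_trans (le_max_left _ _) hn
  have hnN : N ≤ n := le_trans (Nat.le_succ N) (le_trans (le_max_right _ _) hn)
  have hn1 : 1 ≤ n := by omega
  have hnpos : (0 : ℝ) < n := by exact_mod_cast hn1
  have hε : |(n : ℝ)⁻¹| < δ := by
    rw [abs_of_pos (inv_pos.2 hnpos)]
    have h1 : 1 / δ < n := lt_of_lt_of_le hN (by exact_mod_cast hnN)
    rw [div_lt_iff₀ hδ] at h1
    rw [inv_lt_iff_one_lt_mul₀ hnpos]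
    linarith
  -- the case y in [0, 1)
  have key : ∀ y : ℝ, y ∈ Set.Icc (0 : ℝ) 1 → |n * TT η x y| ≤ 1 →
      Good (H2 (NewW w c η n) (a, b, x, y) eX eX)
        (a + H2 (NewW w c η n) (a, b, x, y) eX eY)
        (b + H2 (NewW w c η n) (a, b, x, y) eY eY) := by
    intro y hy hT
    obtain ⟨hx, hTT⟩ := inner_zone hη hη1 hn8 hT
    rw [hTT] at hT
    have hX : (n * T0 η x y) ∈ Set.Icc (-1 : ℝ) 1 := abs_le.1 hT
    have hY : (n * SS η x y - ⌊n * SS η x y⌋) ∈ Set.Icc (0 : ℝ) 1 := by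
      have h1 := Int.floor_le (n * SS η x y)
      have h2 := Int.lt_floor_add_one (n * SS η x y)
      exact ⟨by linarith, by linarith⟩
    have h := hgood (n : ℝ)⁻¹ hε _ (ig_S_mem hab hy hX hY)
    rw [← ig_ident hw.smooth hw.periodic c η hn1 hx, ← ig_ident hw.smooth hw.periodic c η hn1 hx,
      ← ig_ident hw.smooth hw.periodic c η hn1 hx, H2_QQ_xx, H2_QQ_xy, H2_QQ_yy, zero_add] at h
    exact h
  have hy0 : (y - ⌊y⌋) ∈ Set.Icc (0 : ℝ) 1 := by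
    have h1 := Int.floor_le y
    have h2 := Int.lt_floor_add_one y
    exact ⟨by linarith, by linarith⟩
  have hTT := ig_TT_int η x (y - ⌊y⌋) ⌊y⌋
  rw [sub_add_cancel] at hTT
  have hfin := key (y - ⌊y⌋) hy0 (by rw [← hTT]; exact hT)
  have e1 := fun v u => ig_H2_int hw.periodic c η n a b x (y - ⌊y⌋) ⌊y⌋ v u
  simp only [sub_add_cancel] at e1
  rw [e1, e1, e1]
  exact hfin

end Pool.Agent.Helper98.MW
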