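import Pool.Agent.Helper98.MW.B.Fixed
import Pool.Agent.Helper98.MW.B.Periodic

/-! MW-C01. The new family is smooth, `1`-periodic in `y` (`n * SS` changes by the integer `n`), and equal to `-x|x|`
for `1 ≤ |x|` (there `chi = 0`, `mm = 1`, `TT = x`). -/

namespace Pool.Agent.Helper98.MW

theorem NewW_smooth {w : P4 → ℝ} (hw : ContDiff ℝ (⊤ : ℕ∞) w) (c : ℝ × ℝ) (η : ℝ) (n : ℕ) :
    ContDiff ℝ (⊤ : ℕ∞) (NewW w c η n) := by
  have hchi : ContDiff ℝ (⊤ : ℕ∞) (fun P : P4 => chi P.2.2.1) := by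
    have h1 : ContDiff ℝ (⊤ : ℕ∞) (fun P : P4 => P.2.2.1) := by fun_prop
    exact contDiff_chi.comp h1
  have hw' : ContDiff ℝ (⊤ : ℕ∞) (fun P : P4 => w (al c η P.1 P.2.1 P.2.2.2,
      bl c η P.1 P.2.1 P.2.2.2, n * TT η P.2.2.1 P.2.2.2, n * SS η P.2.2.1 P.2.2.2)) :=
    hw.comp ((contDiff_al_fix c η).prodMk ((contDiff_bl_fix c η).prodMk
      ((contDiff_const.mul (contDiff_TT_fix η)).prodMk
        (contDiff_const.mul (contDiff_SS_fix η)))))
  exact (hchi.mul (contDiff_EE_fix c η)).add (((contDiff_mm_fix η).div_const _).mul hw')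

private theorem per_nat {w : P4 → ℝ} (hper : ∀ a b X Y : ℝ, w (a, b, X, Y + 1) = w (a, b, X, Y))
    (a b X : ℝ) (n : ℕ) : ∀ Y : ℝ, w (a, b, X, Y + n) = w (a, b, X, Y) := by
  induction n with
  | zero => intro Y; simp
  | succ n ih =>
    intro Y
    have e : Y + ((n + 1 : ℕ) : ℝ) = (Y + n) + 1 := by
      push_cast
      ring
    rw [e, hper, ih]

theorem NewW_periodic {w : P4 → ℝ} (hper : ∀ a b X Y : ℝ, w (a, b, X, Y + 1) = w (a, b, X, Y))
    (c : ℝ × ℝ) (η : ℝ) (n : ℕ) (a b x y : ℝ) :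
    NewW w c η n (a, b, x, y + 1) = NewW w c η n (a, b, x, y) := by
  simp only [NewW, EE_add_one, mm_add_one, al_add_one, bl_add_one, TT_add_one, SS_add_one]
  rw [mul_add, mul_one, per_nat hper]

theorem NewW_outer {w : P4 → ℝ} (hout : ∀ a b X Y : ℝ, 1 ≤ |X| → w (a, b, X, Y) = -(X * |X|))
    (c : ℝ × ℝ) (η : ℝ) {n : ℕ} (hn : 1 ≤ n) {a b x y : ℝ} (hx : 1 ≤ |x|) :
    NewW w c η n (a, b, x, y) = -(x * |x|) := by
  have hchi : chi x = 0 := chi_eq_zero hx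
  have hmm : mm η x y = 1 := by simp [mm, hchi]
  have hTT : TT η x y = x := by simp [TT, hchi, hmm]
  have hn' : (1 : ℝ) ≤ n := by exact_mod_cast hn
  have hn0 : (n : ℝ) ≠ 0 := by linarith
  have habs : |(n : ℝ) * x| = n * |x| := by
    rw [abs_mul, abs_of_nonneg (by linarith)]
  have h1 : 1 ≤ |(n : ℝ) * x| := by
    rw [habs]
    nlinarith
  simp only [NewW, hchi, hmm, hTT]
  rw [hout _ _ _ _ h1, habs]
  field_simp
  ring

end Pool.Agent.Helper98.MW
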