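import Pool.Agent.Helper98.MW.A.Add
import Pool.Agent.Helper98.MW.A.Basic
import Pool.Agent.Helper98.MW.A.QQ
import Pool.Agent.Helper98.MW.C.NewSmooth

/-! MW-C02. Outside the inner zone the new function is one of the outer functions. For `1 ≤ n * TT` the argument `X = n TT`
of `w` is `≥ 1`, so `mm / n^2 * w = - mm TT^2 = -(x - chi cc)^2 / mm`. For the second derivatives: `1 < n * TT` is an open
condition (`TT` is continuous), use `H2_congr`, `H2_add` and `H2_QQ_*`. -/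

namespace Pool.Agent.Helper98.MW

open Topology

private theorem mm_TT_sq (η x y : ℝ) :
    mm η x y * TT η x y ^ 2 = (x - chi x * cc η y) ^ 2 / mm η x y := by
  have h1 : mm η x y ≠ 0 := by
    have := one_le_mm η x y
    linarith
  unfold TT
  rw [div_pow]
  field_simp

theorem NewW_eq_Out_pos {w : P4 → ℝ}
    (hout : ∀ a b X Y : ℝ, 1 ≤ |X| → w (a, b, X, Y) = -(X * |X|)) (c : ℝ × ℝ) (η : ℝ) {n : ℕ}
    (hn : 1 ≤ n) {P : P4} (h : 1 ≤ n * TT η P.2.2.1 P.2.2.2) :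
    QQ P + NewW w c η n P = Out 1 c (η, P) := by
  have hn' : (1 : ℝ) ≤ n := by exact_mod_cast hn
  have hn0 : (n : ℝ) ≠ 0 := by linarith
  have habs : |(n : ℝ) * TT η P.2.2.1 P.2.2.2| = n * TT η P.2.2.1 P.2.2.2 :=
    abs_of_nonneg (by linarith)
  have hw := hout (al c η P.1 P.2.1 P.2.2.2) (bl c η P.1 P.2.1 P.2.2.2)
    (n * TT η P.2.2.1 P.2.2.2) (n * SS η P.2.2.1 P.2.2.2) (by rw [habs]; exact h)
  rw [habs] at hw
  have key := mm_TT_sq η P.2.2.1 P.2.2.2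
  have e1 : mm η P.2.2.1 P.2.2.2 / (n : ℝ) ^ 2 *
      -(n * TT η P.2.2.1 P.2.2.2 * (n * TT η P.2.2.1 P.2.2.2))
      = -(mm η P.2.2.1 P.2.2.2 * TT η P.2.2.1 P.2.2.2 ^ 2) := by
    field_simp
  unfold NewW Out
  rw [hw, e1, key]
  ring

theorem NewW_eq_Out_neg {w : P4 → ℝ}
    (hout : ∀ a b X Y : ℝ, 1 ≤ |X| → w (a, b, X, Y) = -(X * |X|)) (c : ℝ × ℝ) (η : ℝ) {n : ℕ}
    (hn : 1 ≤ n) {P : P4} (h : n * TT η P.2.2.1 P.2.2.2 ≤ -1) :
    QQ P + NewW w c η n P = Out (-1) c (η, P) := by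
  have hn' : (1 : ℝ) ≤ n := by exact_mod_cast hn
  have hn0 : (n : ℝ) ≠ 0 := by linarith
  have habs : |(n : ℝ) * TT η P.2.2.1 P.2.2.2| = -(n * TT η P.2.2.1 P.2.2.2) :=
    abs_of_nonpos (by linarith)
  have hw := hout (al c η P.1 P.2.1 P.2.2.2) (bl c η P.1 P.2.1 P.2.2.2)
    (n * TT η P.2.2.1 P.2.2.2) (n * SS η P.2.2.1 P.2.2.2) (by rw [habs]; linarith)
  rw [habs] at hw
  have key := mm_TT_sq η P.2.2.1 P.2.2.2
  have e1 : mm η P.2.2.1 P.2.2.2 / (n : ℝ) ^ 2 *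
      -(n * TT η P.2.2.1 P.2.2.2 * -(n * TT η P.2.2.1 P.2.2.2))
      = mm η P.2.2.1 P.2.2.2 * TT η P.2.2.1 P.2.2.2 ^ 2 := by
    field_simp
  unfold NewW Out
  rw [hw, e1, key]
  ring

private theorem outer_aux {w : P4 → ℝ} (hw : ContDiff ℝ (⊤ : ℕ∞) w) (c : ℝ × ℝ) (η : ℝ) {n : ℕ}
    {P : P4} {σ : ℝ}
    (h : (fun Q : P4 => QQ Q + NewW w c η n Q) =ᶠ[𝓝 P] fun Q : P4 => Out σ c (η, Q)) (v u : P4) :
    H2 QQ P v u + H2 (NewW w c η n) P v u = H2 (fun Q : P4 => Out σ c (η, Q)) P v u := by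
  rw [← H2_congr h v u]
  exact (H2_add contDiff_QQ (NewW_smooth hw c η n) P v u).symm

theorem NewW_H2_outer {w : P4 → ℝ} (hw : ContDiff ℝ (⊤ : ℕ∞) w)
    (hout : ∀ a b X Y : ℝ, 1 ≤ |X| → w (a, b, X, Y) = -(X * |X|)) (c : ℝ × ℝ) (η : ℝ) {n : ℕ}
    (hn : 1 ≤ n) {a b x y : ℝ} (h : 1 < |n * TT η x y|) :
    ∃ σ : ℝ, (σ = 1 ∨ σ = -1) ∧
      H2 (NewW w c η n) (a, b, x, y) eX eX
        = H2 (fun P : P4 => Out σ c (η, P)) (a, b, x, y) eX eX ∧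
      a + H2 (NewW w c η n) (a, b, x, y) eX eY
        = H2 (fun P : P4 => Out σ c (η, P)) (a, b, x, y) eX eY ∧
      b + H2 (NewW w c η n) (a, b, x, y) eY eY
        = H2 (fun P : P4 => Out σ c (η, P)) (a, b, x, y) eY eY := by
  have hcont : Continuous (fun P : P4 => (n : ℝ) * TT η P.2.2.1 P.2.2.2) :=
    (contDiff_const.mul (contDiff_TT_fix η)).continuous
  have key : ∀ σ : ℝ, ((fun Q : P4 => QQ Q + NewW w c η n Q) =ᶠ[𝓝 ((a, b, x, y) : P4)]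
      fun Q : P4 => Out σ c (η, Q)) →
      H2 (NewW w c η n) (a, b, x, y) eX eX
        = H2 (fun P : P4 => Out σ c (η, P)) (a, b, x, y) eX eX ∧
      a + H2 (NewW w c η n) (a, b, x, y) eX eY
        = H2 (fun P : P4 => Out σ c (η, P)) (a, b, x, y) eX eY ∧
      b + H2 (NewW w c η n) (a, b, x, y) eY eY
        = H2 (fun P : P4 => Out σ c (η, P)) (a, b, x, y) eY eY := by
    intro σ hσ
    have h1 := outer_aux hw c η hσ eX eX
    have h2 := outer_aux hw c η hσ eX eY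
    have h3 := outer_aux hw c η hσ eY eY
    rw [H2_QQ_xx, zero_add] at h1
    rw [H2_QQ_xy] at h2
    rw [H2_QQ_yy] at h3
    exact ⟨h1, h2, h3⟩
  rcases lt_abs.1 h with h | h
  · refine ⟨1, Or.inl rfl, key 1 ?_⟩
    have hev : ∀ᶠ P : P4 in 𝓝 ((a, b, x, y) : P4), 1 < (n : ℝ) * TT η P.2.2.1 P.2.2.2 :=
      hcont.continuousAt.eventually (lt_mem_nhds h)
    filter_upwards [hev] with P hP
    exact NewW_eq_Out_pos hout c η hn hP.le
  · refine ⟨-1, Or.inr rfl, key (-1) ?_⟩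
    have h' : (n : ℝ) * TT η x y < -1 := by linarith
    have hev : ∀ᶠ P : P4 in 𝓝 ((a, b, x, y) : P4), (n : ℝ) * TT η P.2.2.1 P.2.2.2 < -1 :=
      hcont.continuousAt.eventually (gt_mem_nhds h')
    filter_upwards [hev] with P hP
    exact NewW_eq_Out_neg hout c η hn hP.le

end Pool.Agent.Helper98.MW
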