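import Pool.Agent.Helper98.MW.B.OuterGood
import Pool.Agent.Helper98.MW.C.NewOut
import Pool.Agent.Helper98.MW.C.InnerGood

/-! MW-C07. The growth lemma. Choose `η = min 1 (η0 for σ = 1) (η0 for σ = -1)` (`outer_good`), `θ` by `exists_theta`;
for a family `w` over `Disc c r` take `n` = max of `1`, `8` and `n0` of `inner_good`; `w' = NewW w c η n`
(`NewW_smooth`, `NewW_periodic`, `NewW_outer`). Goodness: if `|n TT| ≤ 1` use `inner_good`, otherwise `NewW_H2_outer` and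
`outer_good` (`Disc c (θ r) ⊆ Disc c R`). -/

namespace Pool.Agent.Helper98.MW

theorem growth (c : ℝ × ℝ) {R : ℝ} (hR0 : 0 < R) (hR : Disc c R ⊆ Dom) :
    ∃ θ > 1, ∀ r : ℝ, 0 < r → θ * r ≤ R → (∃ w, WallFam (Disc c r) w) →
      ∃ w, WallFam (Disc c (θ * r)) w := by
  obtain ⟨η1, hη1pos, H1⟩ := outer_good c R hR 1 (Or.inl rfl)
  obtain ⟨η2, hη2pos, H2'⟩ := outer_good c R hR (-1) (Or.inr rfl)
  set η : ℝ := min 1 (min η1 η2) with hηdef
  have hη : 0 < η := lt_min one_pos (lt_min hη1pos hη2pos)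
  have hηle : η ≤ 1 := min_le_left _ _
  have hη1le : η ≤ η1 := (min_le_right _ _).trans (min_le_left _ _)
  have hη2le : η ≤ η2 := (min_le_right _ _).trans (min_le_right _ _)
  obtain ⟨θ, hθ1, hθ⟩ := exists_theta hη hηle
  refine ⟨θ, hθ1, ?_⟩
  rintro r hr hrR ⟨w, hw⟩
  obtain ⟨n0, hn0⟩ := inner_good hw hη hηle hθ
  set n : ℕ := max 1 n0 with hn
  have hn1 : 1 ≤ n := le_max_left _ _
  have hn2 : n0 ≤ n := le_max_right _ _
  refine ⟨NewW w c η n, ⟨NewW_smooth hw.smooth c η n, NewW_periodic hw.periodic c η n,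
    fun a b X Y h => NewW_outer hw.outer c η hn1 h, ?_⟩⟩
  intro a b x y hab
  by_cases hT : |n * TT η x y| ≤ 1
  · exact hn0 n hn2 a b x y hab hT
  · obtain ⟨σ, hσ, e1, e2, e3⟩ := NewW_H2_outer hw.smooth hw.outer c η hn1 (not_le.1 hT)
      (a := a) (b := b)
    have hab' : (a, b) ∈ Disc c R :=
      Disc_mono c (mul_nonneg (zero_le_one.trans hθ1.le) hr.le) hrR hab
    rw [e1, e2, e3]
    rcases hσ with rfl | rfl
    · exact H1 η hη hη1le a b x y hab'
    · exact H2' η hη hη2le a b x y hab'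

end Pool.Agent.Helper98.MW
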