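import Pool.Agent.Helper98.MW.A.TwoScale
import Pool.Agent.Helper98.MW.A.Basic
import Pool.Agent.Helper98.MW.B.Fixed
import Pool.Agent.Helper98.MW.C.NewSmooth

/-! MW-C03. The inner zone.
* `inner_zone`: `|x - chi cc| ≤ mm / n ≤ 2 / 8`, `|chi cc| ≤ η / (2π) ≤ 1/6`, so `|x| < 1/2`.
* `NewW_inner`: for `|x| ≤ 1/2`, `chi = 1`, `mm = den`, `TT = T0`.
* `NewW_H2_inner`: near `P` (`|x| < 1/2` is open) `QQ + NewW = (QQ + EE) + Om (P, n T0, n SS) / n^2`; use `H2_congr`,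
  `H2_add`, `H2_twoscale`. -/

namespace Pool.Agent.Helper98.MW

/-- the microscopic function in slow and fast variables -/
noncomputable def Om (w : P4 → ℝ) (c : ℝ × ℝ) (η : ℝ) (q : P4 × ℝ × ℝ) : ℝ :=
  den η q.1.2.2.2 * w (al c η q.1.1 q.1.2.1 q.1.2.2.2, bl c η q.1.1 q.1.2.1 q.1.2.2.2, q.2.1, q.2.2)

theorem contDiff_Om {w : P4 → ℝ} (hw : ContDiff ℝ (⊤ : ℕ∞) w) (c : ℝ × ℝ) (η : ℝ) :
    ContDiff ℝ (⊤ : ℕ∞) (Om w c η) := by
  have h1 : ContDiff ℝ (⊤ : ℕ∞) (fun q : P4 × ℝ × ℝ => den η q.1.2.2.2) :=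
    (contDiff_den_fix η).comp contDiff_fst
  have h2 : ContDiff ℝ (⊤ : ℕ∞) (fun q : P4 × ℝ × ℝ => al c η q.1.1 q.1.2.1 q.1.2.2.2) :=
    (contDiff_al_fix c η).comp contDiff_fst
  have h3 : ContDiff ℝ (⊤ : ℕ∞) (fun q : P4 × ℝ × ℝ => bl c η q.1.1 q.1.2.1 q.1.2.2.2) :=
    (contDiff_bl_fix c η).comp contDiff_fst
  have h4 : ContDiff ℝ (⊤ : ℕ∞) (fun q : P4 × ℝ × ℝ => q.2) := contDiff_snd
  have h5 : ContDiff ℝ (⊤ : ℕ∞) (fun q : P4 × ℝ × ℝ =>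
      ((al c η q.1.1 q.1.2.1 q.1.2.2.2, bl c η q.1.1 q.1.2.1 q.1.2.2.2, q.2) : P4)) :=
    h2.prodMk (h3.prodMk h4)
  exact h1.mul (hw.comp h5)

private theorem abs_cc_le {η y : ℝ} (hη : 0 < η) (hη1 : η ≤ 1) : |cc η y| ≤ 1 / 6 := by
  unfold cc
  have hpi : 3 < Real.pi := Real.pi_gt_three
  rw [abs_mul]
  have h1 : |η / (2 * Real.pi)| ≤ 1 / 6 := by
    rw [abs_of_pos (by positivity), div_le_div_iff₀ (by positivity) (by norm_num)]
    nlinarith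
  have h2 : |Real.sin (2 * Real.pi * y)| ≤ 1 := Real.abs_sin_le_one _
  calc |η / (2 * Real.pi)| * |Real.sin (2 * Real.pi * y)| ≤ 1 / 6 * 1 :=
        mul_le_mul h1 h2 (abs_nonneg _) (by norm_num)
    _ = 1 / 6 := by norm_num

private theorem kap_sq_le {η y : ℝ} (hη : 0 < η) (hη1 : η ≤ 1) : kap η y ^ 2 ≤ 1 := by
  unfold kap
  have h2 : |Real.cos (2 * Real.pi * y)| ≤ 1 := Real.abs_cos_le_one _
  have h3 : |η * Real.cos (2 * Real.pi * y)| ≤ 1 := by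
    rw [abs_mul, abs_of_pos hη]
    calc η * |Real.cos (2 * Real.pi * y)| ≤ 1 * 1 :=
          mul_le_mul hη1 h2 (abs_nonneg _) (by norm_num)
      _ = 1 := by norm_num
  have h4 := abs_le.1 h3
  nlinarith [h4.1, h4.2]

theorem inner_zone {η x y : ℝ} {n : ℕ} (hη : 0 < η) (hη1 : η ≤ 1) (hn : 8 ≤ n)
    (h : |n * TT η x y| ≤ 1) : |x| < 1 / 2 ∧ TT η x y = T0 η x y := by
  have hn' : (8 : ℝ) ≤ n := by exact_mod_cast hn
  have hm1 : 1 ≤ mm η x y := one_le_mm η x y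
  have hc0 := chi_nonneg x
  have hc1 := chi_le_one x
  have hk := kap_sq_le (y := y) hη hη1
  have hm2 : mm η x y ≤ 2 := by
    unfold mm
    nlinarith [sq_nonneg (kap η y)]
  have hT : |TT η x y| ≤ 1 / 8 := by
    rw [abs_mul, abs_of_nonneg (by positivity : (0 : ℝ) ≤ n)] at h
    have h0 := abs_nonneg (TT η x y)
    nlinarith
  have hx1 : x - chi x * cc η y = TT η x y * mm η x y := by
    unfold TT
    field_simp
  have hx2 : |x - chi x * cc η y| ≤ 1 / 4 := by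
    rw [hx1, abs_mul, abs_of_pos (by linarith : (0 : ℝ) < mm η x y)]
    have h0 := abs_nonneg (TT η x y)
    nlinarith
  have hx3 : |chi x * cc η y| ≤ 1 / 6 := by
    rw [abs_mul, abs_of_nonneg hc0]
    have h0 := abs_nonneg (cc η y)
    have h1 := abs_cc_le (y := y) hη hη1
    nlinarith
  have hx : |x| < 1 / 2 := by
    have h1 := abs_le.1 hx2
    have h2 := abs_le.1 hx3
    rw [abs_lt]
    constructor <;> linarith [h1.1, h1.2, h2.1, h2.2]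
  refine ⟨hx, ?_⟩
  have hchi : chi x = 1 := chi_eq_one hx.le
  unfold TT T0 mm den
  rw [hchi, one_mul, one_mul]

theorem NewW_inner (w : P4 → ℝ) (c : ℝ × ℝ) (η : ℝ) (n : ℕ) {P : P4} (h : |P.2.2.1| ≤ 1 / 2) :
    NewW w c η n P = EE c η P.1 P.2.1 P.2.2.1 P.2.2.2
      + Om w c η (P, n * T0 η P.2.2.1 P.2.2.2, n * SS η P.2.2.1 P.2.2.2) / (n : ℝ) ^ 2 := by
  have hchi : chi P.2.2.1 = 1 := chi_eq_one h
  have hmm : mm η P.2.2.1 P.2.2.2 = den η P.2.2.2 := by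
    unfold mm den
    rw [hchi, one_mul]
  have hTT : TT η P.2.2.1 P.2.2.2 = T0 η P.2.2.1 P.2.2.2 := by
    unfold TT T0
    rw [hmm, hchi, one_mul]
  unfold NewW Om
  rw [hchi, hmm, hTT, one_mul]
  ring

theorem NewW_H2_inner {w : P4 → ℝ} (hw : ContDiff ℝ (⊤ : ℕ∞) w) (c : ℝ × ℝ) (η : ℝ) {n : ℕ}
    (hn : 1 ≤ n) {P : P4} (h : |P.2.2.1| < 1 / 2) (v u : P4) :
    H2 (fun P => QQ P + NewW w c η n P) P v u
      = H2 (fun P : P4 => QQ P + EE c η P.1 P.2.1 P.2.2.1 P.2.2.2) P v u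
        + H2 (Om w c η) (P, n * T0 η P.2.2.1 P.2.2.2, n * SS η P.2.2.1 P.2.2.2)
            ((n : ℝ)⁻¹ • v, fderiv ℝ (fun P : P4 => T0 η P.2.2.1 P.2.2.2) P v,
              fderiv ℝ (fun P : P4 => SS η P.2.2.1 P.2.2.2) P v)
            ((n : ℝ)⁻¹ • u, fderiv ℝ (fun P : P4 => T0 η P.2.2.1 P.2.2.2) P u,
              fderiv ℝ (fun P : P4 => SS η P.2.2.1 P.2.2.2) P u)
        + (n : ℝ)⁻¹ * fderiv ℝ (Om w c η)
            (P, n * T0 η P.2.2.1 P.2.2.2, n * SS η P.2.2.1 P.2.2.2)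
            (0, H2 (fun P : P4 => T0 η P.2.2.1 P.2.2.2) P v u,
              H2 (fun P : P4 => SS η P.2.2.1 P.2.2.2) P v u) := by
  have hn0 : (n : ℝ) ≠ 0 := by
    have : 0 < n := hn
    positivity
  have hQ : ContDiff ℝ (⊤ : ℕ∞) QQ := by
    unfold QQ
    fun_prop
  have hE := contDiff_EE_fix c η
  have hOm := contDiff_Om hw c η
  have hT := contDiff_T0_fix η
  have hS := contDiff_SS_fix η
  have hG : ContDiff ℝ (⊤ : ℕ∞) (fun P : P4 =>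
      Om w c η (P, n * T0 η P.2.2.1 P.2.2.2, n * SS η P.2.2.1 P.2.2.2) / (n : ℝ) ^ 2) := by
    have h1 : ContDiff ℝ (⊤ : ℕ∞) (fun P : P4 =>
        ((P, n * T0 η P.2.2.1 P.2.2.2, n * SS η P.2.2.1 P.2.2.2) : P4 × ℝ × ℝ)) :=
      contDiff_id.prodMk ((contDiff_const.mul hT).prodMk (contDiff_const.mul hS))
    exact (hOm.comp h1).div_const _
  have hev : (fun P => QQ P + NewW w c η n P) =ᶠ[nhds P] fun P : P4 =>
      (QQ P + EE c η P.1 P.2.1 P.2.2.1 P.2.2.2) +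
        Om w c η (P, n * T0 η P.2.2.1 P.2.2.2, n * SS η P.2.2.1 P.2.2.2) / (n : ℝ) ^ 2 := by
    have hopen : IsOpen {Q : P4 | |Q.2.2.1| < 1 / 2} := by
      apply isOpen_lt
      · fun_prop
      · fun_prop
    filter_upwards [hopen.mem_nhds h] with Q hQ'
    rw [NewW_inner w c η n (le_of_lt hQ'), add_assoc]
  rw [H2_congr hev, H2_add (hQ.add hE) hG, H2_twoscale hOm hT hS hn0, add_assoc]

end Pool.Agent.Helper98.MW
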